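import Mathlib
import Pool.Agent.H42.Codi

open Cardinal

/-- Under CH there is a Tychonoff space with discretely `σ`-compact co-diagonal and no countable
network. -/
theorem Pool.Agent.Results.MP_bdf4c5_gt.UnderCH.result (hCH : (𝔠 : Cardinal.{0}) = ℵ₁) :
    ∃ (X : Type) (_ : TopologicalSpace X), T35Space X ∧
      (∀ D : Set {p : X × X // p.1 ≠ p.2}, IsDiscrete D → IsSigmaCompact (closure D)) ∧
      ¬ ∃ N : Set (Set X), N.Countable ∧ ∀ U, IsOpen U → ∃ M ⊆ N, U = ⋃₀ M :=
  Pool.Agent.H42.Codi.main hCH
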